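import Mathlib
import Pool.Agent.Helper27.ClosureCore

set_option autoImplicit false

namespace Pool.Agent.Results.MP_d3e052_al.AutoClosure

open Pool.Agent.Helper27

/-- The auto-stabilizer of a subgroup `H`: the automorphisms of `G` fixing every element of `H`. -/
def autStab {G : Type*} [Group G] (H : Subgroup G) : Set (G ≃* G) :=
  {φ | ∀ h ∈ H, φ h = h}

/-- The auto-fixed closure of `H`: the elements of `G` fixed by every automorphism of `G` which
fixes every element of `H`. -/
def autClosure {G : Type*} [Group G] (H : Subgroup G) : Subgroup G where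
  carrier := {g | ∀ φ ∈ autStab H, φ g = g}
  one_mem' := fun φ _ => map_one φ
  mul_mem' := by
    intro a b ha hb φ hφ
    rw [map_mul, ha φ hφ, hb φ hφ]
  inv_mem' := by
    intro a ha φ hφ
    rw [map_inv, ha φ hφ]

/-- For all `m ≥ 1` and `n ≥ 2` there is a finitely generated subgroup of `Z^m × F_n` whose
auto-fixed closure is not finitely generated. -/
theorem result (m n : ℕ) (hm : 1 ≤ m) (hn : 2 ≤ n) :
    ∃ H : Subgroup (Multiplicative (Fin m → ℤ) × FreeGroup (Fin n)),
      H.FG ∧ ¬ (autClosure H).FG := by
  let j0 : Fin m := ⟨0, by omega⟩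
  let i0 : Fin n := ⟨0, by omega⟩
  let i1 : Fin n := ⟨1, by omega⟩
  have h01 : i1 ≠ i0 := by simp [i0, i1]
  refine ⟨Subgroup.closure (genSet i0 i1), ?_, ?_⟩
  · rw [Subgroup.fg_iff]
    exact ⟨_, rfl, genSet_finite i0 i1⟩
  · apply not_fg_prod j0 i0 i1 h01
    · intro u hu
      have h1 : shear j0 i0 ∈ autStab (Subgroup.closure (genSet (m := m) i0 i1)) := by
        intro h hh
        rw [shear_fix]
        have h2 : Subgroup.closure (genSet (m := m) i0 i1) ≤
            ((theta j0 i0).comp (MonoidHom.snd _ _)).ker := by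
          rw [Subgroup.closure_le]
          intro g hg
          exact theta_genSet j0 i0 i1 g hg
        exact h2 hh
      exact (shear_fix j0 i0 u).1 (hu _ h1)
    · intro k φ hφ
      exact fix_comm i0 i1 h01 φ.toMonoidHom
        (fun g hg => hφ g (Subgroup.subset_closure hg)) k

end Pool.Agent.Results.MP_d3e052_al.AutoClosure
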